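import Pool.Agent.H3.GU.HF

/-!
A large Gowers norm gives many large Fourier coefficients of derivatives.
-/

set_option autoImplicit false

open Finset Filter Topology
open scoped Pointwise

namespace Pool.Agent.H3.GU

open Pool.Agent.H28.GU

section

variable {q : ℕ} [NeZero q]

/-- The sum over vectors as an iterated sum, last variable innermost. -/
theorem c1_sum_snoc {d : ℕ} (F : (Fin (d + 1) → ZMod q) → ℝ) :
    ∑ s : Fin (d + 1) → ZMod q, F s =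
      ∑ w : Fin d → ZMod q, ∑ b : ZMod q, F (Fin.snoc w b) := by
  rw [← Fintype.sum_equiv (Fin.snocEquiv (fun _ : Fin (d + 1) => ZMod q))
    (fun p : ZMod q × (Fin d → ZMod q) => F (Fin.snoc p.2 p.1)) F (fun p => rfl)]
  rw [Fintype.sum_prod_type, Finset.sum_comm]

/-- The second Gowers norm written out. -/
theorem c1_gw_two (v : ZMod q → ℝ) :
    Gw 2 v = ∑ a, ∑ b, ∑ n, (v n * v (n + a)) * (v (n + b) * v (n + b + a)) := by
  unfold Gw
  rw [Fintype.sum_equiv (finTwoArrowEquiv (ZMod q)) (fun s => ∑ n, Dl 2 s v n)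
    (fun p : ZMod q × ZMod q => ∑ n, (v n * v (n + p.1)) * (v (n + p.2) * v (n + p.2 + p.1)))
    (fun s => rfl)]
  rw [Fintype.sum_prod_type]

/-- The Gowers norm as a sum of second Gowers norms. -/
theorem c1_gw (hDL : T_DL) (d : ℕ) (u : ZMod q → ℝ) :
    Gw (d + 2) u = ∑ w : Fin d → ZMod q, Gw 2 (Dl d w u) := by
  have h2 := hDL.2.1
  have e : ∀ (m : ℕ) (w : Fin m → ZMod q) (b x : ZMod q),
      Dl (m + 1) (Fin.snoc w b : Fin (m + 1) → ZMod q) u x = Dl m w u x * Dl m w u (x + b) := by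
    intro m w b x
    rw [h2 (ZMod q) m (Fin.snoc w b) (Fin.last m) u x, Fin.removeNth_last, Fin.init_snoc,
      Fin.snoc_last]
  have e2 : Gw (d + 2) u = ∑ w : Fin d → ZMod q, ∑ a, ∑ b, ∑ n,
      Dl (d + 2) (Fin.snoc (Fin.snoc w a : Fin (d + 1) → ZMod q) b : Fin (d + 2) → ZMod q) u n := by
    unfold Gw
    rw [c1_sum_snoc, c1_sum_snoc]
  rw [e2]
  refine Finset.sum_congr rfl (fun w _ => ?_)
  rw [c1_gw_two]
  refine Finset.sum_congr rfl (fun a _ => Finset.sum_congr rfl (fun b _ =>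
    Finset.sum_congr rfl (fun n _ => ?_)))
  rw [e, e, e]

/-- The trivial bound of the transform. -/
theorem c1_hat_le (v : ZMod q → ℝ) (hv : ∀ n, |v n| ≤ 1) (ξ : ZMod q) : ‖hat v ξ‖ ≤ q := by
  unfold hat
  have h1 : ∀ n ∈ (Finset.univ : Finset (ZMod q)),
      ‖((v n : ℝ) : ℂ) * ZMod.stdAddChar (n * ξ)‖ ≤ 1 := by
    intro n _
    rw [norm_mul, AddChar.norm_apply, mul_one, Complex.norm_real, Real.norm_eq_abs]
    exact hv n
  refine (norm_sum_le_of_le _ h1).trans ?_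
  rw [Finset.sum_const, Finset.card_univ, ZMod.card, nsmul_eq_mul, mul_one]

/-- The second Gowers norm is at most `q` times the square of the largest coefficient. -/
theorem c1_gw_le (hHF : T_HF) (v : ZMod q → ℝ) (hv : ∀ n, |v n| ≤ 1) (M : ℝ)
    (hM : ∀ ξ, ‖hat v ξ‖ ≤ M) : Gw 2 v ≤ q * M ^ 2 := by
  have hq : (0 : ℝ) < q := Nat.cast_pos.mpr (Nat.pos_of_ne_zero (NeZero.ne q))
  have h4 := hHF.2 q v
  have h2 := hHF.1 q v
  have hs : ∑ n, (v n) ^ 2 ≤ (q : ℝ) := by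
    have h1 : ∀ n ∈ (Finset.univ : Finset (ZMod q)), (v n) ^ 2 ≤ (1 : ℝ) := by
      intro n _
      have := hv n
      rw [← sq_abs]
      have h0 := abs_nonneg (v n)
      nlinarith
    refine (Finset.sum_le_sum h1).trans ?_
    rw [Finset.sum_const, Finset.card_univ, ZMod.card, nsmul_eq_mul, mul_one]
  have hb : ∑ ξ, ‖hat v ξ‖ ^ 4 ≤ M ^ 2 * ∑ ξ, ‖hat v ξ‖ ^ 2 := by
    rw [Finset.mul_sum]
    refine Finset.sum_le_sum (fun ξ _ => ?_)
    have h0 := norm_nonneg (hat v ξ)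
    have h5 : ‖hat v ξ‖ ^ 2 ≤ M ^ 2 := pow_le_pow_left₀ h0 (hM ξ) 2
    calc ‖hat v ξ‖ ^ 4 = ‖hat v ξ‖ ^ 2 * ‖hat v ξ‖ ^ 2 := by ring
      _ ≤ M ^ 2 * ‖hat v ξ‖ ^ 2 := mul_le_mul_of_nonneg_right h5 (by positivity)
  have hc : (q : ℝ) * Gw 2 v ≤ q * (q * M ^ 2) := by
    rw [← h4]
    refine hb.trans ?_
    rw [h2]
    calc M ^ 2 * (q * ∑ n, (v n) ^ 2) ≤ M ^ 2 * (q * q) := by gcongr
      _ = q * (q * M ^ 2) := by ring
  exact le_of_mul_le_mul_left hc hq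

end

open Classical in
/-- A large Gowers norm gives many large Fourier coefficients of derivatives. -/
theorem pf_C1 (hDL : T_DL) (hHF : T_HF) : T_C1 := by
  intro d q _ u δ hu hδ hG
  have hq : (0 : ℝ) < q := Nat.cast_pos.mpr (Nat.pos_of_ne_zero (NeZero.ne q))
  have hD : ∀ (w : Fin d → ZMod q) (x : ZMod q), |Dl d w u x| ≤ 1 :=
    fun w => hDL.2.2.2.2 (ZMod q) d w u hu
  have hmax : ∀ w : Fin d → ZMod q, ∃ ξ : ZMod q,
      ∀ ξ', ‖hat (Dl d w u) ξ'‖ ≤ ‖hat (Dl d w u) ξ‖ := fun w =>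
    Finite.exists_max (fun ξ => ‖hat (Dl d w u) ξ‖)
  choose τ hτ using hmax
  have hMq : ∀ w : Fin d → ZMod q, ‖hat (Dl d w u) (τ w)‖ ≤ q := fun w => c1_hat_le _ (hD w) _
  have hsum : δ * (q : ℝ) ^ (d + 3) ≤ ∑ w : Fin d → ZMod q, q * ‖hat (Dl d w u) (τ w)‖ ^ 2 := by
    refine hG.trans ?_
    rw [c1_gw hDL]
    exact Finset.sum_le_sum (fun w _ => c1_gw_le hHF _ (hD w) _ (hτ w))
  have hcard : (((Finset.univ : Finset (Fin d → ZMod q)).card : ℕ) : ℝ) = (q : ℝ) ^ d := by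
    rw [Finset.card_univ, Fintype.card_fun, ZMod.card, Fintype.card_fin]
    push_cast
    rfl
  have hδ1 : δ ≤ 1 := by
    have h1 : ∑ w : Fin d → ZMod q, q * ‖hat (Dl d w u) (τ w)‖ ^ 2 ≤ (q : ℝ) ^ (d + 3) := by
      have h2 : ∀ w ∈ (Finset.univ : Finset (Fin d → ZMod q)),
          q * ‖hat (Dl d w u) (τ w)‖ ^ 2 ≤ (q : ℝ) ^ 3 := by
        intro w _
        have h3 : ‖hat (Dl d w u) (τ w)‖ ^ 2 ≤ (q : ℝ) ^ 2 :=
          pow_le_pow_left₀ (norm_nonneg _) (hMq w) 2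
        calc q * ‖hat (Dl d w u) (τ w)‖ ^ 2 ≤ q * (q : ℝ) ^ 2 := by gcongr
          _ = (q : ℝ) ^ 3 := by ring
      refine (Finset.sum_le_sum h2).trans ?_
      rw [Finset.sum_const, nsmul_eq_mul, hcard]
      exact le_of_eq (by ring)
    have h4 : δ * (q : ℝ) ^ (d + 3) ≤ 1 * (q : ℝ) ^ (d + 3) := by
      rw [one_mul]
      exact hsum.trans h1
    exact le_of_mul_le_mul_right h4 (by positivity)
  refine ⟨Finset.univ.filter (fun w => δ / 2 * q ≤ ‖hat (Dl d w u) (τ w)‖), τ, ?_,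
    fun s hs => (Finset.mem_filter.mp hs).2⟩
  set S := Finset.univ.filter (fun w : Fin d → ZMod q => δ / 2 * q ≤ ‖hat (Dl d w u) (τ w)‖)
    with hS
  have hpt : ∀ w ∈ (Finset.univ : Finset (Fin d → ZMod q)),
      q * ‖hat (Dl d w u) (τ w)‖ ^ 2 ≤
        (if w ∈ S then (q : ℝ) ^ 3 else 0) + q ^ 3 * δ ^ 2 / 4 := by
    intro w _
    by_cases hw : w ∈ S
    · rw [if_pos hw]
      have h3 : ‖hat (Dl d w u) (τ w)‖ ^ 2 ≤ (q : ℝ) ^ 2 :=
        pow_le_pow_left₀ (norm_nonneg _) (hMq w) 2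
      have h5 : (0 : ℝ) ≤ q ^ 3 * δ ^ 2 / 4 := by positivity
      calc q * ‖hat (Dl d w u) (τ w)‖ ^ 2 ≤ q * (q : ℝ) ^ 2 := by gcongr
        _ = (q : ℝ) ^ 3 := by ring
        _ ≤ (q : ℝ) ^ 3 + q ^ 3 * δ ^ 2 / 4 := by linarith
    · rw [if_neg hw, zero_add]
      have h6 : ‖hat (Dl d w u) (τ w)‖ ≤ δ / 2 * q := by
        by_contra h7
        exact hw (Finset.mem_filter.mpr ⟨Finset.mem_univ w, (not_le.mp h7).le⟩)
      have h3 : ‖hat (Dl d w u) (τ w)‖ ^ 2 ≤ (δ / 2 * q) ^ 2 :=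
        pow_le_pow_left₀ (norm_nonneg _) h6 2
      calc q * ‖hat (Dl d w u) (τ w)‖ ^ 2 ≤ q * (δ / 2 * q) ^ 2 := by gcongr
        _ = q ^ 3 * δ ^ 2 / 4 := by ring
  have hsum2 := hsum.trans (Finset.sum_le_sum hpt)
  rw [Finset.sum_add_distrib, Finset.sum_const, nsmul_eq_mul, hcard, ← Finset.sum_filter,
    Finset.filter_mem_eq_inter, Finset.univ_inter, Finset.sum_const, nsmul_eq_mul] at hsum2
  have hfin : δ / 2 * (q : ℝ) ^ d * q ^ 3 ≤ (S.card : ℝ) * q ^ 3 := by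
    have h8 : (q : ℝ) ^ (d + 3) = q ^ d * q ^ 3 := pow_add _ _ _
    rw [h8] at hsum2
    have h9 : δ ^ 2 ≤ δ := by nlinarith
    have h10 : (0 : ℝ) ≤ q ^ d * q ^ 3 := by positivity
    have h11 : (q : ℝ) ^ d * q ^ 3 * δ ^ 2 ≤ q ^ d * q ^ 3 * δ := by gcongr
    have h12 : (0 : ℝ) ≤ q ^ d * q ^ 3 * δ := by positivity
    nlinarith
  exact le_of_mul_le_mul_right hfin (by positivity)

end Pool.Agent.H3.GU
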