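import Pool.Agent.H28.GU.TargetsC

/-!
Parseval and the fourth moment for the discrete Fourier transform on `ZMod q`.
-/

set_option autoImplicit false

open Finset Filter Topology
open scoped Pointwise

namespace Pool.Agent.H3.GU

open Pool.Agent.H28.GU

section

variable {q : ℕ} [NeZero q]

/-- Orthogonality. -/
theorem hf_orth (t : ZMod q) :
    ∑ ξ : ZMod q, (ZMod.stdAddChar (t * ξ) : ℂ) = if t = 0 then (q : ℂ) else 0 := by
  have h := AddChar.sum_mulShift (R := ZMod q) (R' := ℂ) (ψ := ZMod.stdAddChar) t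
    (ZMod.isPrimitive_stdAddChar q)
  rw [ZMod.card] at h
  have e : ∑ ξ : ZMod q, (ZMod.stdAddChar (t * ξ) : ℂ) = ∑ ξ : ZMod q,
      (ZMod.stdAddChar (ξ * t) : ℂ) := Finset.sum_congr rfl (fun ξ _ => by rw [mul_comm])
  rw [e, h]
  split_ifs <;> simp

/-- The square of the absolute value as a double sum. -/
theorem hf_sq (u : ZMod q → ℝ) (ξ : ZMod q) :
    ((‖hat u ξ‖ ^ 2 : ℝ) : ℂ) =
      ∑ n, ∑ m, ((u n : ℝ) : ℂ) * ((u m : ℝ) : ℂ) * ZMod.stdAddChar ((n - m) * ξ) := by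
  have h1 : ((‖hat u ξ‖ ^ 2 : ℝ) : ℂ) = hat u ξ * (starRingEnd ℂ) (hat u ξ) := by
    rw [Complex.mul_conj, Complex.normSq_eq_norm_sq]
  rw [h1]
  unfold hat
  rw [map_sum, Finset.sum_mul_sum]
  refine Finset.sum_congr rfl (fun n _ => Finset.sum_congr rfl (fun m _ => ?_))
  rw [map_mul (starRingEnd ℂ), Complex.conj_ofReal, ← AddChar.map_neg_eq_conj]
  have h2 : (ZMod.stdAddChar ((n - m) * ξ) : ℂ) =
      ZMod.stdAddChar (n * ξ) * ZMod.stdAddChar (-(m * ξ)) := by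
    rw [← AddChar.map_add_eq_mul]
    congr 1
    ring
  rw [h2]
  ring

/-- Parseval. -/
theorem hf_parseval (u : ZMod q → ℝ) : ∑ ξ, ‖hat u ξ‖ ^ 2 = q * ∑ n, (u n) ^ 2 := by
  have h : ((∑ ξ, ‖hat u ξ‖ ^ 2 : ℝ) : ℂ) = ((q * ∑ n, (u n) ^ 2 : ℝ) : ℂ) := by
    rw [Complex.ofReal_sum]
    have e1 : ∀ ξ ∈ (Finset.univ : Finset (ZMod q)), ((‖hat u ξ‖ ^ 2 : ℝ) : ℂ) =
        ∑ n, ∑ m, ((u n : ℝ) : ℂ) * ((u m : ℝ) : ℂ) * ZMod.stdAddChar ((n - m) * ξ) :=
      fun ξ _ => hf_sq u ξ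
    rw [Finset.sum_congr rfl e1, Finset.sum_comm]
    rw [Complex.ofReal_mul, Complex.ofReal_natCast, Complex.ofReal_sum, Finset.mul_sum]
    refine Finset.sum_congr rfl (fun n _ => ?_)
    rw [Finset.sum_comm]
    have e2 : ∀ m ∈ (Finset.univ : Finset (ZMod q)),
        ∑ ξ : ZMod q, ((u n : ℝ) : ℂ) * ((u m : ℝ) : ℂ) * ZMod.stdAddChar ((n - m) * ξ) =
        if m = n then (q : ℂ) * (((u n) ^ 2 : ℝ) : ℂ) else 0 := by
      intro m _
      rw [← Finset.mul_sum, hf_orth]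
      by_cases hm : m = n
      · subst hm
        rw [if_pos (sub_self _), if_pos rfl]
        push_cast
        ring
      · rw [if_neg (fun h => hm (sub_eq_zero.mp h).symm), if_neg hm, mul_zero]
    rw [Finset.sum_congr rfl e2, Finset.sum_ite_eq' Finset.univ n, if_pos (Finset.mem_univ n)]
  exact_mod_cast h

/-- The autocorrelation. -/
noncomputable def hf_r (u : ZMod q → ℝ) (h : ZMod q) : ℝ := ∑ n, u n * u (n + h)

/-- The square of the transform is the transform of the autocorrelation. -/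
theorem hf_auto (u : ZMod q → ℝ) (ξ : ZMod q) :
    ((‖hat u ξ‖ ^ 2 : ℝ) : ℂ) = hat (hf_r u) (-ξ) := by
  rw [hf_sq]
  unfold hat hf_r
  have e1 : ∀ n ∈ (Finset.univ : Finset (ZMod q)),
      ∑ m, ((u n : ℝ) : ℂ) * ((u m : ℝ) : ℂ) * ZMod.stdAddChar ((n - m) * ξ) =
      ∑ h, ((u n : ℝ) : ℂ) * ((u (n + h) : ℝ) : ℂ) * ZMod.stdAddChar (h * (-ξ)) := by
    intro n _
    refine (Fintype.sum_equiv (Equiv.addLeft n) _ _ (fun h => ?_)).symm
    rw [Equiv.coe_addLeft]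
    congr 2
    ring
  rw [Finset.sum_congr rfl e1, Finset.sum_comm]
  refine Finset.sum_congr rfl (fun h _ => ?_)
  rw [← Finset.sum_mul, Complex.ofReal_sum]
  congr 1
  refine Finset.sum_congr rfl (fun n _ => ?_)
  push_cast
  rfl

/-- The second Gowers norm as the sum of the squares of the autocorrelation. -/
theorem hf_gw (u : ZMod q → ℝ) : Gw 2 u = ∑ h, (hf_r u h) ^ 2 := by
  unfold Gw
  rw [Fintype.sum_equiv (finTwoArrowEquiv (ZMod q)) (fun s => ∑ n, Dl 2 s u n)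
    (fun p : ZMod q × ZMod q => ∑ n, (u n * u (n + p.1)) * (u (n + p.2) * u (n + p.2 + p.1)))
    (fun s => rfl)]
  rw [Fintype.sum_prod_type]
  refine Finset.sum_congr rfl (fun h _ => ?_)
  rw [Finset.sum_comm, sq]
  unfold hf_r
  rw [Finset.sum_mul]
  refine Finset.sum_congr rfl (fun n _ => ?_)
  dsimp only
  rw [← Finset.mul_sum]
  congr 1
  exact Fintype.sum_equiv (Equiv.addLeft n) _ _ (fun m => rfl)

/-- The fourth moment. -/
theorem hf_fourth (u : ZMod q → ℝ) : ∑ ξ, ‖hat u ξ‖ ^ 4 = q * Gw 2 u := by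
  rw [hf_gw, ← hf_parseval (hf_r u)]
  refine Fintype.sum_equiv (Equiv.neg (ZMod q)) _ _ (fun ξ => ?_)
  rw [Equiv.neg_apply, ← hf_auto, Complex.norm_real, Real.norm_of_nonneg (by positivity)]
  ring

end

/-- Parseval and the fourth moment. -/
theorem pf_HF : T_HF :=
  ⟨fun _ _ u => hf_parseval u, fun _ _ u => hf_fourth u⟩

end Pool.Agent.H3.GU
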